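import Mathlib
import Pool.Agent.H27.RC.Stmts

/-!
Module CNT of the project RC: counting along a Rokhlin tower.
-/

open Filter Topology Pool.Agent.H27.RC

noncomputable section

namespace Pool.Agent.H56.RC

/-- The combinatorial core. -/
theorem count_aux (ℓ M₀ s' j N : ℕ) (P : ℤ → Prop) (F G : ℕ → Prop) (hℓ : 1 ≤ ℓ)
    (hgap : ∀ m n : ℤ, P m → P n → m ≠ n → (ℓ : ℤ) ≤ |m - n|)
    (hF : ∀ u : ℕ, F u → ¬ ∃ i : ℕ, M₀ ≤ i ∧ i + M₀ < ℓ ∧ P ((u : ℤ) - i))
    (hG : ∀ u : ℕ, (∃ i : ℕ, j * s' ≤ i ∧ i < (j + 1) * s' ∧ P ((u : ℤ) - i)) → G u)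
    (hj : (j + 1) * s' ≤ ℓ) (hs : 4 * M₀ + 3 ≤ s')
    (hunc : (({u : ℕ | u < N ∧ ¬ ∃ i : ℕ, i < ℓ ∧ P ((u : ℤ) - i)}.ncard : ℕ) : ℝ) ≤
      1 / (2 * ℓ) * N)
    (hN : 8 * ℓ ≤ N) :
    {u : ℕ | u < N ∧ F u}.ncard ≤ {u : ℕ | u < N ∧ G u}.ncard := by
  classical
  set Bf : Finset ℤ := (Finset.Ioo (-(ℓ : ℤ)) N).filter P with hBf
  set b := Bf.card with hb
  set unc : Finset ℕ := (Finset.range N).filter
    (fun u => ¬ ∃ i : ℕ, i < ℓ ∧ P ((u : ℤ) - i)) with hun
  have e1 : {u : ℕ | u < N ∧ ¬ ∃ i : ℕ, i < ℓ ∧ P ((u : ℤ) - i)}.ncard = unc.card := by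
    rw [← Set.ncard_coe_finset]
    congr 1
    ext u
    simp [hun]
  -- (a) most points are covered
  have ha : N ≤ unc.card + b * ℓ := by
    have hsub : Finset.range N ⊆
        unc ∪ (Bf ×ˢ Finset.range ℓ).image (fun p => (p.1 + (p.2 : ℤ)).toNat) := by
      intro u hu
      have hu' := hu
      rw [Finset.mem_range] at hu
      by_cases hc : ∃ i : ℕ, i < ℓ ∧ P ((u : ℤ) - i)
      · obtain ⟨i, hi, hP⟩ := hc
        refine Finset.mem_union_right _ (Finset.mem_image.2 ⟨((u : ℤ) - i, i), ?_, ?_⟩)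
        · refine Finset.mem_product.2 ⟨Finset.mem_filter.2 ⟨Finset.mem_Ioo.2 ⟨?_, ?_⟩, hP⟩,
            Finset.mem_range.2 hi⟩
          · simp only; omega
          · simp only; omega
        · simp
      · exact Finset.mem_union_left _ (Finset.mem_filter.2 ⟨hu', hc⟩)
    calc N = (Finset.range N).card := by simp
      _ ≤ _ := Finset.card_le_card hsub
      _ ≤ _ := Finset.card_union_le _ _
      _ ≤ unc.card + b * ℓ := by
        refine Nat.add_le_add_left (Finset.card_image_le.trans ?_) _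
        rw [Finset.card_product, Finset.card_range]
  -- (b) rows
  have hrow : {u : ℕ | u < N ∧ F u}.ncard ≤ unc.card + b * (2 * M₀) := by
    have hsub : {u : ℕ | u < N ∧ F u} ⊆
        ((unc ∪ (Bf ×ˢ (Finset.range M₀ ∪ Finset.Ico (ℓ - M₀) ℓ)).image
          (fun p => (p.1 + (p.2 : ℤ)).toNat) : Finset ℕ) : Set ℕ) := by
      rintro u ⟨hu, hFu⟩
      rw [Finset.mem_coe]
      by_cases hc : ∃ i : ℕ, i < ℓ ∧ P ((u : ℤ) - i)
      · obtain ⟨i, hi, hP⟩ := hc
        have hi2 : i < M₀ ∨ (ℓ - M₀ ≤ i ∧ i < ℓ) := by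
          by_contra hcon
          apply hF u hFu
          refine ⟨i, ?_, ?_, hP⟩ <;> omega
        refine Finset.mem_union_right _ (Finset.mem_image.2 ⟨((u : ℤ) - i, i), ?_, ?_⟩)
        · refine Finset.mem_product.2 ⟨Finset.mem_filter.2 ⟨Finset.mem_Ioo.2 ⟨?_, ?_⟩, hP⟩, ?_⟩
          · simp only; omega
          · simp only; omega
          · simp only [Finset.mem_union, Finset.mem_range, Finset.mem_Ico]
            exact hi2
        · simp
      · exact Finset.mem_union_left _ (Finset.mem_filter.2 ⟨Finset.mem_range.2 hu, hc⟩)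
    calc {u : ℕ | u < N ∧ F u}.ncard ≤ _ := Set.ncard_le_ncard hsub (Finset.finite_toSet _)
      _ = _ := Set.ncard_coe_finset _
      _ ≤ _ := Finset.card_union_le _ _
      _ ≤ unc.card + b * (2 * M₀) := by
        refine Nat.add_le_add_left (Finset.card_image_le.trans ?_) _
        rw [Finset.card_product]
        refine Nat.mul_le_mul_left _ ((Finset.card_union_le _ _).trans ?_)
        rw [Finset.card_range, Nat.card_Ico]
        omega
  -- (c) columns
  set Bc : Finset ℤ := (Finset.Icc (0 : ℤ) (N - ℓ)).filter P with hBc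
  have hcol : Bc.card * s' ≤ {u : ℕ | u < N ∧ G u}.ncard := by
    have hinj : Set.InjOn (fun p : ℤ × ℕ => (p.1 + (p.2 : ℤ)).toNat)
        ((Bc ×ˢ Finset.Ico (j * s') ((j + 1) * s') : Finset (ℤ × ℕ)) : Set (ℤ × ℕ)) := by
      rintro ⟨m, i⟩ hmi ⟨m', i'⟩ hmi' heq
      rw [Finset.mem_coe, Finset.mem_product, Finset.mem_filter, Finset.mem_Icc,
        Finset.mem_Ico] at hmi hmi'
      obtain ⟨⟨⟨hm0, hm1⟩, hPm⟩, hi0, hi1⟩ := hmi
      obtain ⟨⟨⟨hm0', hm1'⟩, hPm'⟩, hi0', hi1'⟩ := hmi'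
      simp only at heq hm0 hm1 hPm hi0 hi1 hm0' hm1' hPm' hi0' hi1'
      have hii : i < ℓ := lt_of_lt_of_le hi1 hj
      have hii' : i' < ℓ := lt_of_lt_of_le hi1' hj
      have heq2 : m + i = m' + i' := by omega
      by_cases hmm : m = m'
      · subst hmm
        have : i = i' := by omega
        rw [this]
      · exfalso
        have := hgap m m' hPm hPm' hmm
        rcases abs_cases (m - m') with h1 | h1 <;> omega
    have hsub : (((Bc ×ˢ Finset.Ico (j * s') ((j + 1) * s')).image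
        (fun p : ℤ × ℕ => (p.1 + (p.2 : ℤ)).toNat) : Finset ℕ) : Set ℕ) ⊆
        {u : ℕ | u < N ∧ G u} := by
      intro u hu
      rw [Finset.mem_coe, Finset.mem_image] at hu
      obtain ⟨⟨m, i⟩, hmi, rfl⟩ := hu
      rw [Finset.mem_product, Finset.mem_filter, Finset.mem_Icc, Finset.mem_Ico] at hmi
      obtain ⟨⟨⟨hm0, hm1⟩, hPm⟩, hi0, hi1⟩ := hmi
      simp only at hm0 hm1 hPm hi0 hi1 ⊢
      have hii : i < ℓ := lt_of_lt_of_le hi1 hj
      refine ⟨by omega, hG _ ⟨i, hi0, hi1, ?_⟩⟩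
      have : (((m + (i : ℤ)).toNat : ℕ) : ℤ) - i = m := by omega
      rw [this]
      exact hPm
    have hfin : {u : ℕ | u < N ∧ G u}.Finite := (Set.finite_lt_nat N).subset fun u hu => hu.1
    calc Bc.card * s' = (Bc ×ˢ Finset.Ico (j * s') ((j + 1) * s')).card := by
          rw [Finset.card_product, Nat.card_Ico]
          congr 1
          rw [Nat.add_mul, one_mul]
          omega
      _ = _ := (Finset.card_image_of_injOn hinj).symm
      _ = _ := (Set.ncard_coe_finset _).symm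
      _ ≤ _ := Set.ncard_le_ncard hsub hfin
  -- (d) almost all bases are good
  have hd : b ≤ Bc.card + 2 := by
    have hsub : Bf ⊆ Bc ∪ ((Finset.Ioo (-(ℓ : ℤ)) 0).filter P ∪
        (Finset.Ioo ((N : ℤ) - ℓ) N).filter P) := by
      intro m hm
      rw [hBf, Finset.mem_filter, Finset.mem_Ioo] at hm
      obtain ⟨⟨h1, h2⟩, h3⟩ := hm
      simp only [hBc, Finset.mem_union, Finset.mem_filter, Finset.mem_Icc, Finset.mem_Ioo]
      by_cases h4 : 0 ≤ m
      · by_cases h5 : m ≤ N - ℓ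
        · exact Or.inl ⟨⟨h4, h5⟩, h3⟩
        · exact Or.inr (Or.inr ⟨⟨by omega, h2⟩, h3⟩)
      · exact Or.inr (Or.inl ⟨⟨h1, by omega⟩, h3⟩)
    have h1 : ((Finset.Ioo (-(ℓ : ℤ)) 0).filter P).card ≤ 1 := by
      rw [Finset.card_le_one]
      intro m hm n hn
      rw [Finset.mem_filter, Finset.mem_Ioo] at hm hn
      by_contra hmn
      have := hgap m n hm.2 hn.2 hmn
      rcases abs_cases (m - n) with h1 | h1 <;> omega
    have h2 : ((Finset.Ioo ((N : ℤ) - ℓ) N).filter P).card ≤ 1 := by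
      rw [Finset.card_le_one]
      intro m hm n hn
      rw [Finset.mem_filter, Finset.mem_Ioo] at hm hn
      by_contra hmn
      have := hgap m n hm.2 hn.2 hmn
      rcases abs_cases (m - n) with h1 | h1 <;> omega
    calc b ≤ _ := Finset.card_le_card hsub
      _ ≤ _ := Finset.card_union_le _ _
      _ ≤ Bc.card + 2 := by
        refine Nat.add_le_add_left ((Finset.card_union_le _ _).trans ?_) _
        omega
  -- final arithmetic
  rw [e1] at hunc
  have hℓR : (1 : ℝ) ≤ ℓ := by exact_mod_cast hℓ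
  have hℓpos : (0 : ℝ) < ℓ := by linarith
  have hNR : (8 : ℝ) * ℓ ≤ N := by exact_mod_cast hN
  -- `y = N / (2ℓ)`
  set y : ℝ := 1 / (2 * ℓ) * N with hy
  have hyN : y * (2 * ℓ) = N := by rw [hy]; field_simp
  have hy4 : 4 ≤ y := by
    have : 4 * (2 * (ℓ : ℝ)) ≤ y * (2 * ℓ) := by rw [hyN]; linarith
    exact le_of_mul_le_mul_right this (by positivity)
  have haR : (N : ℝ) ≤ unc.card + b * ℓ := by exact_mod_cast ha
  have hby : y ≤ b := by
    have h1 : y * ℓ ≤ b * ℓ := by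
      have : y ≤ y * ℓ := le_mul_of_one_le_right (by linarith) hℓR
      nlinarith
    exact le_of_mul_le_mul_right h1 hℓpos
  have hbR : (b : ℝ) ≤ Bc.card + 2 := by exact_mod_cast hd
  have hb4 : (4 : ℝ) ≤ b := le_trans hy4 hby
  have key : (({u : ℕ | u < N ∧ F u}.ncard : ℕ) : ℝ) ≤ (({u : ℕ | u < N ∧ G u}.ncard : ℕ) : ℝ) := by
    have hrowR : (({u : ℕ | u < N ∧ F u}.ncard : ℕ) : ℝ) ≤ unc.card + b * (2 * M₀) := by
      exact_mod_cast hrow
    have hcolR : (Bc.card : ℝ) * s' ≤ (({u : ℕ | u < N ∧ G u}.ncard : ℕ) : ℝ) := by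
      exact_mod_cast hcol
    have hsR : (4 : ℝ) * M₀ + 3 ≤ s' := by exact_mod_cast hs
    have hM0 : (0 : ℝ) ≤ M₀ := by positivity
    have hstep : ((b : ℝ) - 2) * (4 * M₀ + 3) ≤ (Bc.card : ℝ) * s' := by
      calc ((b : ℝ) - 2) * (4 * M₀ + 3) ≤ (Bc.card : ℝ) * (4 * M₀ + 3) := by
            apply mul_le_mul_of_nonneg_right <;> linarith
        _ ≤ (Bc.card : ℝ) * s' := by
            apply mul_le_mul_of_nonneg_left hsR; positivity
    have hstep2 : y + b * (2 * M₀) ≤ ((b : ℝ) - 2) * (4 * M₀ + 3) := by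
      have : (0 : ℝ) ≤ (M₀ : ℝ) * (b - 4) := mul_nonneg hM0 (by linarith)
      nlinarith
    linarith
  exact_mod_cast key

section chi

variable {X : Type}

theorem chiZero_nonneg (β : X → ℝ) (x : X) : 0 ≤ chiZero β x := le_max_left _ _

theorem chiZero_le_one {β : X → ℝ} {x : X} (h : β x ≤ 1) : chiZero β x ≤ 1 :=
  max_le (by norm_num) (by linarith)

theorem chiZero_of_zero {β : X → ℝ} {x : X} (h : β x = 0) : chiZero β x = 0 := by
  rw [chiZero, h]; norm_num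

theorem chiZero_of_one {β : X → ℝ} {x : X} (h : β x = 1) : chiZero β x = 1 := by
  rw [chiZero, h]; norm_num

end chi

variable {X : Type} [TopologicalSpace X]

theorem h_zpow_add (h : X ≃ₜ X) (i j : ℤ) (x : X) : (h ^ (i + j)) x = (h ^ i) ((h ^ j) x) := by
  rw [zpow_add]; rfl

/-- At most one level is occupied. -/
theorem chi_disj {h : X ≃ₜ X} {ℓ : ℕ} {β : X → ℝ}
    (hdis : ∀ (x : X) (i : ℤ), i ≠ 0 → |i| < (ℓ : ℤ) → β x = 0 ∨ β ((h ^ i) x) = 0)
    (x : X) {i j : ℕ} (hi : i < ℓ) (hj : j < ℓ) (hij : i ≠ j)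
    (hχ : chiZero β ((h ^ (-(i : ℤ))) x) ≠ 0) : chiZero β ((h ^ (-(j : ℤ))) x) = 0 := by
  have h1 := hdis ((h ^ (-(i : ℤ))) x) ((i : ℤ) - j) (by omega) (by
    rw [abs_lt]; constructor <;> omega)
  rw [← h_zpow_add] at h1
  have e : ((i : ℤ) - j + -(i : ℤ)) = -(j : ℤ) := by ring
  rw [e] at h1
  rcases h1 with h1 | h1
  · exact absurd (chiZero_of_zero h1) hχ
  · exact chiZero_of_zero h1

/-- Sums over levels with at most one nonzero term. -/
theorem sum_levels {h : X ≃ₜ X} {ℓ : ℕ} {β : X → ℝ} 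
    (hdis : ∀ (x : X) (i : ℤ), i ≠ 0 → |i| < (ℓ : ℤ) → β x = 0 ∨ β ((h ^ i) x) = 0)
    (x : X) (S : Finset ℕ) (hS : ∀ i ∈ S, i < ℓ) :
    (∑ i ∈ S, chiZero β ((h ^ (-(i : ℤ))) x) = 0 ∧
      ∀ i ∈ S, chiZero β ((h ^ (-(i : ℤ))) x) = 0) ∨
    ∃ i ∈ S, chiZero β ((h ^ (-(i : ℤ))) x) ≠ 0 ∧
      (∑ i ∈ S, chiZero β ((h ^ (-(i : ℤ))) x) = chiZero β ((h ^ (-(i : ℤ))) x)) ∧
      (∑ i ∈ S, chiZero β ((h ^ (-(i : ℤ))) x) ^ 2 = chiZero β ((h ^ (-(i : ℤ))) x) ^ 2) := by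
  by_cases hex : ∃ i ∈ S, chiZero β ((h ^ (-(i : ℤ))) x) ≠ 0
  · right
    obtain ⟨i, hi, hχ⟩ := hex
    refine ⟨i, hi, hχ, ?_, ?_⟩
    · refine Finset.sum_eq_single_of_mem i hi fun k hk hki => ?_
      exact chi_disj hdis x (hS i hi) (hS k hk) (Ne.symm hki) hχ
    · refine Finset.sum_eq_single_of_mem i hi fun k hk hki => ?_
      rw [chi_disj hdis x (hS i hi) (hS k hk) (Ne.symm hki) hχ]
      norm_num
  · left
    push Not at hex
    exact ⟨Finset.sum_eq_zero hex, hex⟩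

theorem cnt : CNTStmt := by
  intro X _ h ℓ M₀ s' J β hℓ hJ hs hβc hβ hdis hN
  have hblk : ∀ j, j < J → ∀ i ∈ Finset.Ico (j * s') ((j + 1) * s'), i < ℓ := by
    intro j hj i hi
    rw [Finset.mem_Ico] at hi
    calc i < (j + 1) * s' := hi.2
      _ ≤ J * s' := Nat.mul_le_mul_right _ hj
      _ ≤ ℓ := hJ
  have hlev : ∀ i ∈ (Finset.range ℓ).filter (fun i => M₀ ≤ i ∧ i + M₀ < ℓ), i < ℓ := by
    intro i hi
    exact Finset.mem_range.1 (Finset.mem_filter.1 hi).1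
  refine ⟨?_, ?_, ?_, ?_, ?_⟩
  · intro x
    unfold fOut
    rcases sum_levels hdis x _ hlev with ⟨h1, _⟩ | ⟨i, _, _, h1, _⟩
    · rw [h1]; norm_num
    · rw [h1]
      have h2 := chiZero_nonneg β ((h ^ (-(i : ℤ))) x)
      have h3 := chiZero_le_one (hβ ((h ^ (-(i : ℤ))) x)).2
      constructor <;> linarith
  · intro j x hj
    unfold omJ
    rcases sum_levels hdis x _ (hblk j hj) with ⟨h1, _⟩ | ⟨i, _, _, h1, _⟩
    · rw [h1]; norm_num
    · rw [h1]
      exact ⟨chiZero_nonneg _ _, chiZero_le_one (hβ _).2⟩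
  · intro i j x hi hj hij
    unfold omJ
    rcases sum_levels hdis x _ (hblk i hi) with ⟨h1, _⟩ | ⟨p, hp, hpχ, _, _⟩
    · exact Or.inl h1
    · right
      refine Finset.sum_eq_zero fun q hq => ?_
      refine chi_disj hdis x (hblk i hi p hp) (hblk j hj q hq) ?_ hpχ
      rintro rfl
      rw [Finset.mem_Ico] at hp hq
      rcases Nat.lt_or_gt_of_ne hij with hlt | hlt
      · have : (i + 1) * s' ≤ j * s' := Nat.mul_le_mul_right _ hlt
        omega
      · have : (j + 1) * s' ≤ i * s' := Nat.mul_le_mul_right _ hlt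
        omega
  · intro j x hj
    unfold omJ
    rcases sum_levels hdis x _ (hblk j hj) with ⟨h1, h2⟩ | ⟨i, _, _, h1, h2⟩
    · rw [h1]
      rw [Finset.sum_eq_zero]
      · norm_num
      · intro i hi
        rw [h2 i hi]
        norm_num
    · rw [h1, h2]
  · obtain ⟨N₁, hN₁⟩ := hN
    refine ⟨max N₁ (8 * ℓ), ?_⟩
    intro N hN x j hj
    refine count_aux ℓ M₀ s' j N (fun m => β ((h ^ m) x) = 1) _ _ hℓ ?_ ?_ ?_ ?_ hs
      (hN₁ N (le_trans (le_max_left _ _) hN) x) (le_trans (le_max_right _ _) hN)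
    · intro m n hm hn hmn
      by_contra hcon
      push Not at hcon
      have h1 := hdis ((h ^ m) x) (n - m) (by omega) (by rwa [abs_sub_comm])
      rw [← h_zpow_add, sub_add_cancel, hm, hn] at h1
      rcases h1 with h1 | h1 <;> norm_num at h1
    · rintro u hu ⟨i, hi1, hi2, hP⟩
      apply hu
      have hmem : i ∈ (Finset.range ℓ).filter (fun i => M₀ ≤ i ∧ i + M₀ < ℓ) := by
        rw [Finset.mem_filter, Finset.mem_range]
        exact ⟨by omega, hi1, hi2⟩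
      have e1 : (h ^ (-(i : ℤ))) ((h ^ (u : ℤ)) x) = (h ^ ((u : ℤ) - i)) x := by
        rw [← h_zpow_add]; congr 2; ring
      have e2 : chiZero β ((h ^ (-(i : ℤ))) ((h ^ (u : ℤ)) x)) = 1 := by
        rw [e1]; exact chiZero_of_one hP
      unfold fOut
      rw [Finset.sum_eq_single_of_mem i hmem, e2]
      · norm_num
      · intro k hk hki
        exact chi_disj hdis _ (hlev i hmem) (hlev k hk) (Ne.symm hki) (by rw [e2]; norm_num)
    · rintro u ⟨i, hi1, hi2, hP⟩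
      have hmem : i ∈ Finset.Ico (j * s') ((j + 1) * s') := Finset.mem_Ico.2 ⟨hi1, hi2⟩
      have e1 : (h ^ (-(i : ℤ))) ((h ^ (u : ℤ)) x) = (h ^ ((u : ℤ) - i)) x := by
        rw [← h_zpow_add]; congr 2; ring
      have e2 : chiZero β ((h ^ (-(i : ℤ))) ((h ^ (u : ℤ)) x)) = 1 := by
        rw [e1]; exact chiZero_of_one hP
      show omJ h s' β j ((h ^ (u : ℤ)) x) = 1
      unfold omJ
      rw [Finset.sum_eq_single_of_mem i hmem, e2]
      intro k hk hki
      exact chi_disj hdis _ (hblk j hj i hmem) (hblk j hj k hk) (Ne.symm hki)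
        (by rw [e2]; norm_num)
    · exact le_trans (Nat.mul_le_mul_right _ hj) hJ

end Pool.Agent.H56.RC
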