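import Mathlib
import Pool.Agent.H27.RC.Stmts

/-!
Module NV of the project RC: mean dimension gives partitions of unity of small multiplicity.
-/

open scoped ENNReal NNReal
open Filter Topology Pool.Agent.H27.RC

noncomputable section

namespace Pool.Agent.H56.RC

variable {X : Type} [TopologicalSpace X]

/-- The joined cover is a finite open cover. -/
theorem isFinOpenCover_joinIter (h : X ≃ₜ X) {𝒰 : Set (Set X)} (hU : IsFinOpenCover 𝒰) (n : ℕ) :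
    IsFinOpenCover (joinIter h 𝒰 n) := by
  obtain ⟨hfin, hopen, hcov⟩ := hU
  refine ⟨?_, ?_, ?_⟩
  · have h1 : {U : Fin n → Set X | ∀ i, U i ∈ 𝒰}.Finite := by
      have := Set.Finite.pi (t := fun _ : Fin n => 𝒰) (fun _ => hfin)
      refine this.subset ?_
      intro U hU
      simpa [Set.mem_pi] using hU
    refine (h1.image fun U => {x | ∀ i : Fin n, (h ^ (i : ℕ)) x ∈ U i}).subset ?_
    rintro W ⟨U, hU, rfl⟩
    exact ⟨U, hU, rfl⟩
  · rintro W ⟨U, hU, rfl⟩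
    rw [Set.ofPred_forall]
    refine isOpen_iInter_of_finite fun i => ?_
    exact (hopen _ (hU i)).preimage (h ^ (i : ℕ)).continuous
  · rw [Set.eq_univ_iff_forall]
    intro x
    have h2 : ∀ i : Fin n, ∃ U ∈ 𝒰, (h ^ (i : ℕ)) x ∈ U := by
      intro i
      have : (h ^ (i : ℕ)) x ∈ ⋃₀ 𝒰 := by rw [hcov]; trivial
      exact this
    choose U hU hx using h2
    exact ⟨{y | ∀ i : Fin n, (h ^ (i : ℕ)) y ∈ U i}, ⟨U, hU, rfl⟩, hx⟩

/-- The order of a finite cover is attained. -/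
theorem exists_Dcov {𝒰 : Set (Set X)} (hU : IsFinOpenCover 𝒰) :
    ∃ 𝒱 : Set (Set X), IsFinOpenCover 𝒱 ∧ Refines 𝒱 𝒰 ∧ OrderLE 𝒱 (Dcov 𝒰) := by
  have hne : {d : ℕ | ∃ 𝒱 : Set (Set X), IsFinOpenCover 𝒱 ∧ Refines 𝒱 𝒰 ∧ OrderLE 𝒱 d}.Nonempty := by
    refine ⟨𝒰.ncard, 𝒰, hU, fun V hV => ⟨V, hV, subset_rfl⟩, ?_⟩
    intro x
    calc {V ∈ 𝒰 | x ∈ V}.encard ≤ 𝒰.encard := Set.encard_le_encard (fun V hV => hV.1)
      _ = (𝒰.ncard : ℕ∞) := (hU.1.cast_ncard_eq).symm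
      _ ≤ (𝒰.ncard : ℕ∞) + 1 := le_self_add
  exact Nat.sInf_mem hne

theorem nv : NVStmt := by
  intro X _ _ _ h r hr hmd 𝒰 hU ℓ₀
  have h1 : liminf (fun n : ℕ => (Dcov (joinIter h 𝒰 n) : ℝ≥0∞) / (n : ℝ≥0∞)) atTop
      < ENNReal.ofReal (2 * r) := by
    refine lt_of_le_of_lt ?_ hmd
    unfold mdim
    exact le_iSup₂ (f := fun (𝒰 : Set (Set X)) (_ : IsFinOpenCover 𝒰) =>
      liminf (fun n : ℕ => (Dcov (joinIter h 𝒰 n) : ℝ≥0∞) / (n : ℝ≥0∞)) atTop) 𝒰 hU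
  have h2 := frequently_lt_of_liminf_lt (by isBoundedDefault) h1
  obtain ⟨ℓ, hℓ, hD⟩ := (frequently_atTop.1 h2) (max ℓ₀ 1)
  have hℓ0 : ℓ₀ ≤ ℓ := le_trans (le_max_left _ _) hℓ
  have hℓ1 : 1 ≤ ℓ := le_trans (le_max_right _ _) hℓ
  obtain ⟨𝒱, hV, href, hord⟩ := exists_Dcov (isFinOpenCover_joinIter h hU ℓ)
  set d := Dcov (joinIter h 𝒰 ℓ) with hd
  have hdle : (d : ℝ) ≤ 2 * r * ℓ := by
    have hℓp : (ℓ : ℝ≥0∞) ≠ 0 := by
      simp; omega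
    have h3 : (d : ℝ≥0∞) < ENNReal.ofReal (2 * r) * (ℓ : ℝ≥0∞) := by
      rwa [ENNReal.div_lt_iff (Or.inl hℓp) (Or.inl (ENNReal.natCast_ne_top ℓ))] at hD
    have h4 : (d : ℝ≥0∞) < ENNReal.ofReal (2 * r * ℓ) := by
      rw [ENNReal.ofReal_mul (by positivity), ENNReal.ofReal_natCast]
      exact h3
    have h5 : (d : ℝ≥0∞) = ENNReal.ofReal (d : ℝ) := (ENNReal.ofReal_natCast d).symm
    rw [h5] at h4
    exact (ENNReal.ofReal_lt_ofReal_iff_of_nonneg (by positivity)).1 h4 |>.le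
  refine ⟨ℓ, hℓ0, d, hdle, ?_⟩
  obtain ⟨hVfin, hVopen, hVcov⟩ := hV
  let ι : Type := {V : Set X // V ∈ 𝒱 ∧ V.Nonempty}
  have : Finite ι := (hVfin.subset (s := 𝒱) (t := {V | V ∈ 𝒱 ∧ V.Nonempty})
    (fun V hV => hV.1)).to_subtype
  have : Fintype ι := Fintype.ofFinite ι
  obtain ⟨f, hf⟩ := PartitionOfUnity.exists_isSubordinate (X := X) (s := Set.univ) isClosed_univ
    (fun i : ι => (i : Set X)) (fun i => hVopen _ i.2.1) (by
      intro x _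
      have : x ∈ ⋃₀ 𝒱 := by rw [hVcov]; trivial
      obtain ⟨V, hV1, hV2⟩ := this
      exact Set.mem_iUnion.2 ⟨⟨V, hV1, ⟨x, hV2⟩⟩, hV2⟩)
  have hmem : ∀ (i : ι) (x : X), f i x ≠ 0 → x ∈ (i : Set X) := fun i x hx =>
    hf i (subset_tsupport _ hx)
  refine ⟨ι, inferInstance, fun i => i.2.2.some, fun i x => f i x, fun i => (f i).continuous,
    fun i x => f.nonneg i x, ?_, ?_, ?_⟩
  · intro x
    have := f.sum_eq_one (x := x) (Set.mem_univ x)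
    rwa [finsum_eq_sum_of_fintype] at this
  · intro x
    have h6 : {i : ι | f i x ≠ 0}.encard ≤ ((d + 1 : ℕ) : ℕ∞) := by
      have h7 : (Subtype.val '' {i : ι | f i x ≠ 0}) ⊆ {V ∈ 𝒱 | x ∈ V} := by
        rintro V ⟨i, hi, rfl⟩
        exact ⟨i.2.1, hmem i x hi⟩
      calc {i : ι | f i x ≠ 0}.encard = (Subtype.val '' {i : ι | f i x ≠ 0}).encard :=
            (Subtype.val_injective.encard_image _).symm
        _ ≤ {V ∈ 𝒱 | x ∈ V}.encard := Set.encard_le_encard h7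
        _ ≤ d + 1 := hord x
        _ = ((d + 1 : ℕ) : ℕ∞) := by push_cast; rfl
    have h8 : {i : ι | f i x ≠ 0}.Finite := Set.toFinite _
    rw [← h8.cast_ncard_eq] at h6
    exact_mod_cast h6
  · intro i
    obtain ⟨W, hW, hVW⟩ := href _ i.2.1
    exact ⟨W, hW, hVW i.2.2.some_mem, fun x hx => hVW (hmem i x hx)⟩

end Pool.Agent.H56.RC
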